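import Mathlib
import Pool.Agent.Helper619.Weyl.NotPI

set_option autoImplicit false
set_option linter.unusedSectionVars false

namespace Pool.Agent.Results.MP_7bcc96_al.NonWeylDivision

open Polynomial Pool.Agent.Helper619.Weyl

/-- Defining relation of the first Weyl algebra. -/
inductive WeylRel (k : Type) [Field k] : FreeAlgebra k (Fin 2) → FreeAlgebra k (Fin 2) → Prop
  | comm : WeylRel k (FreeAlgebra.ι k 0 * FreeAlgebra.ι k 1)
      (FreeAlgebra.ι k 1 * FreeAlgebra.ι k 0 + 1)

/-- The first Weyl algebra `k⟨x, y⟩ / (x y - y x - 1)`. -/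
abbrev A1 (k : Type) [Field k] : Type := RingQuot (WeylRel k)

/-- `Q`, with the ring homomorphism `φ : A → Q`, is the classical quotient division ring of `A`:
`φ` is injective and every element of `Q` is a fraction `(φ s)⁻¹ (φ a)`. -/
structure IsQuotientDivisionRing {A Q : Type} [Ring A] [DivisionRing Q] (φ : A →+* Q) : Prop where
  injective : Function.Injective φ
  fractions : ∀ q : Q, ∃ a s : A, s ≠ 0 ∧ q = (φ s)⁻¹ * φ a

/-- The division ring `D` satisfies a nonzero polynomial identity (with coefficients in its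
centre). -/
def IsPI (D : Type) [DivisionRing D] : Prop :=
  ∃ (n : ℕ) (f : FreeAlgebra (Subring.center D) (Fin n)), f ≠ 0 ∧
    ∀ a : Fin n → D, FreeAlgebra.lift (Subring.center D) a f = 0

section A1
variable (k : Type) [Field k]

noncomputable def xA : A1 k := RingQuot.mkAlgHom k (WeylRel k) (FreeAlgebra.ι k 0)

noncomputable def yA : A1 k := RingQuot.mkAlgHom k (WeylRel k) (FreeAlgebra.ι k 1)

theorem xA_mul_yA : xA k * yA k = yA k * xA k + 1 := by
  rw [xA, yA, ← map_mul, ← map_mul, ← map_one (RingQuot.mkAlgHom k (WeylRel k)), ← map_add]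
  exact RingQuot.mkAlgHom_rel k WeylRel.comm

theorem exists_liftA {T : Type*} [Ring T] [Algebra k T] (x y : T) (h : x * y = y * x + 1) :
    ∃ F : A1 k →ₐ[k] T, F (xA k) = x ∧ F (yA k) = y := by
  let f : FreeAlgebra k (Fin 2) →ₐ[k] T := FreeAlgebra.lift k ![x, y]
  have hf : ∀ ⦃a b : FreeAlgebra k (Fin 2)⦄, WeylRel k a b → f a = f b := by
    rintro a b ⟨⟩
    simp [f, h]
  refine ⟨RingQuot.liftAlgHom k ⟨f, hf⟩, ?_, ?_⟩
  · rw [xA, RingQuot.liftAlgHom_mkAlgHom_apply]
    simp [f]
  · rw [yA, RingQuot.liftAlgHom_mkAlgHom_apply]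
    simp [f]

/-- normal ordering -/
theorem exists_normal (a : A1 k) :
    ∃ c : ℕ × ℕ →₀ k, a = c.sum fun ij r => r • (yA k ^ ij.1 * xA k ^ ij.2) := by
  set M : Submodule k (A1 k) :=
    Submodule.span k (Set.range fun ij : ℕ × ℕ => yA k ^ ij.1 * xA k ^ ij.2) with hM
  have hmem : ∀ i j, yA k ^ i * xA k ^ j ∈ M := fun i j => Submodule.subset_span ⟨(i, j), rfl⟩
  have hcomm : ∀ i : ℕ, xA k * yA k ^ i = yA k ^ i * xA k + (i : k) • yA k ^ (i - 1) := by
    intro i
    induction i with
    | zero => simp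
    | succ n ih =>
      rw [pow_succ, ← mul_assoc, ih, add_mul, mul_assoc, xA_mul_yA, mul_add, mul_one,
        ← mul_assoc, smul_mul_assoc, add_assoc]
      congr 1
      rcases n with _ | n
      · simp
      · rw [Nat.add_sub_cancel, Nat.add_sub_cancel, ← pow_succ]
        push_cast
        module
  have hclosed : ∀ w : FreeAlgebra k (Fin 2), ∀ m ∈ M,
      RingQuot.mkAlgHom k (WeylRel k) w * m ∈ M := by
    intro w
    induction w using FreeAlgebra.induction with
    | grade0 r =>
      intro m hm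
      rw [AlgHom.commutes, ← Algebra.smul_def]
      exact M.smul_mem r hm
    | grade1 i =>
      intro m hm
      rw [hM] at hm
      induction hm using Submodule.span_induction with
      | mem z hz =>
        obtain ⟨⟨a, b⟩, rfl⟩ := hz
        fin_cases i
        · show xA k * (yA k ^ a * xA k ^ b) ∈ M
          rw [← mul_assoc, hcomm, add_mul, smul_mul_assoc, mul_assoc, ← pow_succ']
          exact M.add_mem (hmem _ _) (M.smul_mem _ (hmem _ _))
        · show yA k * (yA k ^ a * xA k ^ b) ∈ M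
          rw [← mul_assoc, ← pow_succ']
          exact hmem _ _
      | zero => rw [mul_zero]; exact M.zero_mem
      | add z w _ _ hz hw => rw [mul_add]; exact M.add_mem hz hw
      | smul r z _ hz => rw [mul_smul_comm]; exact M.smul_mem r hz
    | mul a b ha hb =>
      intro m hm
      rw [map_mul, mul_assoc]
      exact ha _ (hb _ hm)
    | add a b ha hb =>
      intro m hm
      rw [map_add, add_mul]
      exact M.add_mem (ha _ hm) (hb _ hm)
  obtain ⟨w, rfl⟩ := RingQuot.mkAlgHom_surjective k (WeylRel k) a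
  have h1 : (1 : A1 k) ∈ M := by simpa using hmem 0 0
  have h2 := hclosed w 1 h1
  rw [mul_one, hM] at h2
  obtain ⟨c, hc⟩ := Finsupp.mem_span_range_iff_exists_finsupp.1 h2
  exact ⟨c, hc.symm⟩

theorem const_comm (c : k) (d : Dv k) : polyD k (C c) * d = d * polyD k (C c) := by
  have hd : d ∈ Subfield.closure (Set.range (fun c => polyD k (C c)) ∪
      {gD k, xD k}) := by rw [closure_consts k]; trivial
  induction hd using Subfield.closure_induction with
  | mem z hz =>
    rcases hz with ⟨b, rfl⟩ | hz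
    · show polyD k (C c) * polyD k (C b) = polyD k (C b) * polyD k (C c)
      rw [← map_mul (polyD k), ← map_mul (polyD k), mul_comm]
    · rcases hz with rfl | hz
      · rw [gD, ← map_mul, ← map_mul, mul_comm]
      · rw [Set.mem_singleton_iff.1 hz, xD_mul_polyD, shift_C]
  | one => rw [mul_one, one_mul]
  | add y z _ _ hy hz => rw [mul_add, add_mul, hy, hz]
  | neg y _ hy => rw [mul_neg, neg_mul, hy]
  | inv y _ hy => exact (show Commute (polyD k (C c)) y from hy).inv_right₀
  | mul y z _ _ hy hz => rw [← mul_assoc, hy, mul_assoc, hz, mul_assoc]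

noncomputable instance algDv : Algebra k (Dv k) :=
  RingHom.toAlgebra' ((polyD k).comp C) (const_comm k)

theorem algebraMap_Dv (c : k) : algebraMap k (Dv k) c = polyD k (C c) := rfl

/-- the second generator -/
noncomputable def yD : Dv k := polyD k (C 2⁻¹ * (X - 1)) * (xD k)⁻¹

/-- the polynomials `q n` with `yD ^ n = q n (g) x ^ (-n)` -/
noncomputable def qpol : ℕ → k[X]
  | 0 => 1
  | n + 1 => (C 2⁻¹ * (X - 1)) * unshift k 1 (qpol n)

theorem yD_pow (n : ℕ) : yD k ^ n = polyD k (qpol k n) * ((xD k)⁻¹) ^ n := by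
  induction n with
  | zero => simp [qpol]
  | succ n ih =>
    rw [pow_succ', ih, yD, qpol, map_mul (polyD k) (C 2⁻¹ * (X - 1)), mul_assoc,
      ← mul_assoc ((xD k)⁻¹), inv_xD_mul_polyD, pow_succ', mul_assoc, mul_assoc]

variable [CharZero k]

theorem qpol_degree (n : ℕ) : (qpol k n).natDegree = n ∧ qpol k n ≠ 0 := by
  induction n with
  | zero => simp [qpol]
  | succ n ih =>
    have h1 : (X - 1 : k[X]) = X - C 1 := by simp
    have h2 : (C (2⁻¹ : k) * (X - 1) : k[X]) ≠ 0 := by
      apply mul_ne_zero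
      · simp
      · rw [h1]; exact X_sub_C_ne_zero 1
    have h3 : unshift k 1 (qpol k n) ≠ 0 := unshift_ne_zero k 1 _ ih.2
    refine ⟨?_, mul_ne_zero h2 h3⟩
    rw [qpol, natDegree_mul h2 h3, natDegree_C_mul (by norm_num), h1, natDegree_X_sub_C]
    have h4 : (unshift k 1 (qpol k n)).natDegree = n := by
      rw [unshift, coe_compRingHom, natDegree_comp, ih.1]
      have : (X - 2 * ((1 : ℕ) : k[X])) = X - C 2 := by
        rw [Nat.cast_one, mul_one, map_ofNat]
      rw [this, natDegree_X_sub_C, mul_one]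
    rw [h4, add_comm]

theorem xD_mul_yD : xD k * yD k = yD k * xD k + 1 := by
  have hx := xD_ne_zero k
  rw [yD, mul_assoc, inv_mul_cancel₀ hx, mul_one, ← mul_assoc, xD_mul_polyD, mul_assoc,
    mul_inv_cancel₀ hx, mul_one, ← map_one (polyD k), ← map_add]
  congr 1
  have h2 : (C (2⁻¹ : k) * 2 : k[X]) = 1 := by
    have : (2 : k[X]) = C 2 := (map_ofNat C 2).symm
    rw [this, ← C_mul, inv_mul_cancel₀ two_ne_zero, C_1]
  rw [map_mul, shift_C, map_sub, shift_X, map_one, Nat.cast_one, mul_one]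
  linear_combination h2

theorem gD_eq : gD k = 2 * (yD k * xD k) + 1 := by
  have hx := xD_ne_zero k
  rw [yD, mul_assoc, inv_mul_cancel₀ hx, mul_one, gD]
  have h2 : (C (2⁻¹ : k) * 2 : k[X]) = 1 := by
    have : (2 : k[X]) = C 2 := (map_ofNat C 2).symm
    rw [this, ← C_mul, inv_mul_cancel₀ two_ne_zero, C_1]
  have h3 : (X : k[X]) = 2 * (C 2⁻¹ * (X - 1)) + 1 := by linear_combination (-(X - 1)) * h2
  conv_lhs => rw [h3]
  rw [map_add, map_mul (polyD k) 2, map_one, map_ofNat]

/-- the embedding of the Weyl algebra -/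
theorem exists_psi : ∃ ψ : A1 k →ₐ[k] Dv k, ψ (xA k) = xD k ∧ ψ (yA k) = yD k :=
  exists_liftA k _ _ (xD_mul_yD k)

theorem psi_injective (ψ : A1 k →ₐ[k] Dv k) (hx : ψ (xA k) = xD k) (hy : ψ (yA k) = yD k) :
    Function.Injective ψ := by
  classical
  rw [injective_iff_map_eq_zero]
  intro a ha
  obtain ⟨c, rfl⟩ := exists_normal k a
  by_contra hne
  have hc : c ≠ 0 := by
    rintro rfl
    exact hne (by simp)
  obtain ⟨ij0, hij0, hmax⟩ := Finset.exists_max_image c.support Prod.fst
    (Finsupp.support_nonempty_iff.2 hc)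
  set N := ij0.1 with hN
  have hx0 := xD_ne_zero k
  have h1 : ∑ ij ∈ c.support, polyD k (C (c ij) * qpol k ij.1) * xD k ^ (ij.2 + N - ij.1) = 0 := by
    have h2 : ψ (c.sum fun ij r => r • (yA k ^ ij.1 * xA k ^ ij.2)) * xD k ^ N = 0 := by
      rw [ha, zero_mul]
    rw [Finsupp.sum, map_sum, Finset.sum_mul] at h2
    rw [← h2]
    apply Finset.sum_congr rfl
    intro ij hij
    have hle : ij.1 ≤ N := hmax ij hij
    rw [map_smul, map_mul ψ, map_pow ψ, map_pow ψ, hx, hy, yD_pow, Algebra.smul_def,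
      algebraMap_Dv, map_mul, mul_assoc, mul_assoc, mul_assoc, mul_assoc]
    congr 2
    rw [← pow_add, inv_pow, eq_inv_mul_iff_mul_eq₀ (pow_ne_zero _ hx0), ← pow_add]
    congr 1
    omega
  let G : ℕ →₀ k[X] := ∑ ij ∈ c.support,
    Finsupp.single (ij.2 + N - ij.1) (C (c ij) * qpol k ij.1)
  have h3 : (G.sum fun j c => polyD k c * xD k ^ j) = 0 := by
    rw [← h1]
    rw [← Finsupp.sum_finsetSum_index]
    · apply Finset.sum_congr rfl
      intro ij _
      rw [Finsupp.sum_single_index]
      rw [map_zero, zero_mul]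
    · intro j; rw [map_zero, zero_mul]
    · intro j a b; rw [map_add, add_mul]
  have hG : G = 0 := by
    by_contra h
    exact sum_ne_zero k G h h3
  have h4 := congrArg (fun f : k[X] => f.coeff N) (DFunLike.congr_fun hG ij0.2)
  simp only [G, Finsupp.finsetSum_apply, Finsupp.zero_apply, finsetSum_coeff,
    coeff_zero] at h4
  rw [Finset.sum_eq_single ij0] at h4
  · rw [hN, Nat.add_sub_cancel, Finsupp.single_eq_same, coeff_C_mul] at h4
    rcases mul_eq_zero.1 h4 with h5 | h5
    · exact Finsupp.mem_support_iff.1 hij0 h5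
    · have h6 := qpol_degree k ij0.1
      apply h6.2
      rw [← leadingCoeff_eq_zero, leadingCoeff, h6.1, h5]
  · intro ij hij hne'
    rw [Finsupp.single_apply]
    split_ifs with h5
    · rw [coeff_C_mul]
      have hle : ij.1 ≤ N := hmax ij hij
      have hlt : ij.1 < N := by
        rcases hle.lt_or_eq with h | h
        · exact h
        · exfalso
          apply hne'
          ext
          · exact h
          · rw [← h5]; omega
      rw [coeff_eq_zero_of_natDegree_lt (by rw [(qpol_degree k ij.1).1]; exact hlt), mul_zero]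
    · exact coeff_zero _
  · intro h
    exact absurd hij0 h

/-- the element `g = 2 y x + 1` of the Weyl algebra -/
noncomputable def gA : A1 k := 2 * (yA k * xA k) + 1

theorem aeval_gD (f : k[X]) : aeval (gD k) f = polyD k f := by
  have : (aeval (gD k) : k[X] →ₐ[k] Dv k).toRingHom = polyD k := by
    apply Polynomial.ringHom_ext
    · intro a
      exact (aeval_C (gD k) a).trans rfl
    · exact aeval_X (gD k)
  exact congrArg (fun h : k[X] →+* Dv k => h f) this

theorem psi_aeval (ψ : A1 k →ₐ[k] Dv k) (hx : ψ (xA k) = xD k) (hy : ψ (yA k) = yD k)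
    (f : k[X]) : ψ (aeval (gA k) f) = polyD k f := by
  have hg : ψ (gA k) = gD k := by
    rw [gA, gD_eq, map_add, map_mul, map_mul, map_one, hx, hy, map_ofNat]
  rw [← aeval_gD, ← hg]
  exact (Polynomial.aeval_algHom_apply ψ (gA k) f).symm

theorem psi_sum (ψ : A1 k →ₐ[k] Dv k) (hx : ψ (xA k) = xD k) (hy : ψ (yA k) = yD k)
    (f : ℕ →₀ k[X]) : ψ (f.sum fun j c => aeval (gA k) c * xA k ^ j) =
      f.sum fun j c => polyD k c * xD k ^ j := by
  rw [Finsupp.sum, map_sum]
  apply Finset.sum_congr rfl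
  intro j _
  rw [map_mul ψ, map_pow ψ, psi_aeval k ψ hx hy, hx]

theorem exists_quotient : ∃ ψ : A1 k →+* Dv k, IsQuotientDivisionRing ψ := by
  obtain ⟨ψ, hx, hy⟩ := exists_psi k
  refine ⟨ψ.toRingHom, psi_injective k ψ hx hy, ?_⟩
  intro q
  have hex : ∀ b : B k, ∃ a : A1 k, ψ a = num k b := by
    intro b
    obtain ⟨f, rfl⟩ := exists_toB k b
    exact ⟨f.sum fun j c => aeval (gA k) c * xA k ^ j, by rw [psi_sum k ψ hx hy, num_toB]⟩
  obtain ⟨b, s, hs, rfl⟩ := exists_frac k q
  obtain ⟨b', hb'⟩ := hex b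
  obtain ⟨s', hs'⟩ := hex s
  refine ⟨b', s', ?_, ?_⟩
  · rintro rfl
    rw [map_zero] at hs'
    exact hs (num_injective k (hs'.symm.trans (map_zero _).symm))
  · rw [← hb', ← hs']; rfl

theorem exists_equiv {Q : Type} [DivisionRing Q] (φ : A1 k →+* Q)
    (h : IsQuotientDivisionRing φ) :
    ∃ F : Dv k ≃+* Q, ∀ c, F (polyD k (C c)) = φ (algebraMap k (A1 k) c) := by
  obtain ⟨ψ, hx, hy⟩ := exists_psi k
  have hinj := psi_injective k ψ hx hy
  have hrel : ∀ f : k[X], φ (xA k) * (φ.comp (aeval (gA k) : k[X] →ₐ[k] A1 k).toRingHom) f =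
      (φ.comp (aeval (gA k) : k[X] →ₐ[k] A1 k).toRingHom) (shift k 1 f) * φ (xA k) := by
    intro f
    show φ (xA k) * φ (aeval (gA k) f) = φ (aeval (gA k) (shift k 1 f)) * φ (xA k)
    rw [← map_mul, ← map_mul]
    congr 1
    apply hinj
    rw [map_mul ψ, map_mul ψ, psi_aeval k ψ hx hy, psi_aeval k ψ hx hy, hx, xD_mul_polyD]
  obtain ⟨F, hF, hFx⟩ := exists_lift k (φ.comp (aeval (gA k) : k[X] →ₐ[k] A1 k).toRingHom)
    (φ (xA k)) hrel (by
      intro f hf
      apply Ne.isUnit
      have h1 : (f.sum fun j c =>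
          (φ.comp (aeval (gA k) : k[X] →ₐ[k] A1 k).toRingHom) c * φ (xA k) ^ j) =
          φ (f.sum fun j c => aeval (gA k) c * xA k ^ j) := by
        rw [Finsupp.sum, Finsupp.sum, map_sum]
        apply Finset.sum_congr rfl
        intro j _
        rw [map_mul φ, map_pow φ]
        rfl
      rw [h1]
      intro h2
      have h3 := h.injective (h2.trans (map_zero φ).symm)
      have h4 := psi_sum k ψ hx hy f
      rw [h3, map_zero] at h4
      exact sum_ne_zero k f hf h4.symm)
  have hF' : ∀ f, F (polyD k f) = φ (aeval (gA k) f) := hF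
  have hx0 : φ (xA k) ≠ 0 := by
    intro h0
    have h3 := h.injective (h0.trans (map_zero φ).symm)
    rw [h3, map_zero] at hx
    exact xD_ne_zero k hx.symm
  have hFy : F (yD k) = φ (yA k) := by
    have h1 : F (yD k * xD k) = φ (yA k * xA k) := by
      have h2 : yD k * xD k = polyD k (C 2⁻¹ * (X - 1)) := by
        rw [yD, mul_assoc, inv_mul_cancel₀ (xD_ne_zero k), mul_one]
      rw [h2, hF']
      congr 1
      apply hinj
      rw [psi_aeval k ψ hx hy, map_mul ψ, hx, hy, h2]
    rw [map_mul, map_mul, hFx] at h1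
    exact mul_right_cancel₀ hx0 h1
  have hFψ : ∀ a, F (ψ a) = φ a := by
    intro a
    obtain ⟨c, rfl⟩ := exists_normal k a
    rw [Finsupp.sum, map_sum, map_sum, map_sum]
    apply Finset.sum_congr rfl
    intro ij _
    rw [map_smul, map_mul ψ, map_pow ψ, map_pow ψ, hx, hy, Algebra.smul_def, algebraMap_Dv,
      map_mul F, map_mul F, map_pow F, map_pow F, hFx, hFy, hF', aeval_C, Algebra.smul_def,
      map_mul φ, map_mul φ, map_pow φ, map_pow φ]
  have hsurj : Function.Surjective F := by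
    intro q
    obtain ⟨a, s, _, rfl⟩ := h.fractions q
    exact ⟨(ψ s)⁻¹ * ψ a, by rw [map_mul, map_inv₀, hFψ, hFψ]⟩
  refine ⟨RingEquiv.ofBijective F ⟨F.injective, hsurj⟩, ?_⟩
  intro c
  show F (polyD k (C c)) = _
  rw [hF', aeval_C]

end A1

/-- A division ring with a pair `u ≠ 0`, `v`, `u v = (v + 2) u` is far from PI. -/
theorem not_PI {D : Type} [DivisionRing D] [CharZero D] (u v : D) (hu : u ≠ 0)
    (huv : u * v = (v + 2) * u) : ¬ IsPI D ∧ ¬ Module.Finite (Subring.center D) D := by
  have : CharZero (Subring.center D) := (Subring.center D).subtype.charZero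
  refine ⟨?_, W13.not_finite_over_center u v hu huv⟩
  rintro ⟨n, f, hf, h⟩
  obtain ⟨a, ha⟩ := W13.no_identity (k := Subring.center D) u v hu huv n f hf
  exact ha (h a)

/-- The division ring `D` obtained from a real subfield `k₀` of `k`. -/
theorem general_case (k₀ k : Type) [Field k₀] [Field k] [CharZero k] (j : k₀ →+* k)
    (e : k₀ →+* ℝ) {Q : Type} [DivisionRing Q]
    (φ : A1 k →+* Q) (h : IsQuotientDivisionRing φ) :
    ∃ D : Subfield Q, (∀ c, φ (algebraMap k (A1 k) (j c)) ∈ D) ∧ ¬ IsPI D ∧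
      ¬ Module.Finite (Subring.center D) D ∧
      ∀ (l : Type) [Field l] [CharZero l] (Q' : Type) [DivisionRing Q'] (φ' : A1 l →+* Q'),
          IsQuotientDivisionRing φ' → IsEmpty (D ≃+* Q') := by
  obtain ⟨F, hF⟩ := exists_equiv k φ h
  obtain ⟨E, hE, -⟩ := exists_map j
  have : CharZero k₀ := e.charZero
  have : CharZero Q := charZero_of_injective_ringHom (f := (F : Dv k →+* Q)) F.injective
  let H : Dv k₀ →+* Q := (F : Dv k →+* Q).comp E
  let D : Subfield Q := (FixD k₀).map H
  have : CharZero D := D.subtype.charZero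
  have hmem : ∀ d : Dv k₀, d ∈ FixD k₀ → H d ∈ D := fun d hd => ⟨d, hd, rfl⟩
  obtain ⟨u, v, hu, hv, hu0, huv⟩ := exists_pair_FixD k₀
  have hPI := not_PI (D := D) ⟨H u, hmem u hu⟩ ⟨H v, hmem v hv⟩
    (by
      intro h0
      have : H u = 0 := congrArg Subtype.val h0
      exact hu0 ((map_eq_zero H).1 this))
    (by
      apply Subtype.ext
      show H u * H v = (H v + 2) * H u
      rw [← map_mul, huv, map_mul, map_add, map_ofNat])
  refine ⟨D, ?_, hPI.1, hPI.2, ?_⟩
  · intro c
    have h1 : φ (algebraMap k (A1 k) (j c)) = H (polyD k₀ (C c)) := by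
      show _ = F (E (polyD k₀ (C c)))
      rw [hE, Polynomial.map_C, hF]
    rw [h1]
    exact hmem _ (const_mem_FixD k₀ c)
  · intro l _ _ Q' _ φ' h'
    refine ⟨fun ε => ?_⟩
    obtain ⟨F', -⟩ := exists_equiv l φ' h'
    let G : FixD k₀ →+* D :=
      (H.comp (FixD k₀).subtype).codRestrict D (fun d => hmem d d.2)
    have hG : Function.Bijective G := by
      refine ⟨G.injective, ?_⟩
      rintro ⟨d, x, hx, rfl⟩
      exact ⟨⟨x, hx⟩, rfl⟩
    exact no_iso k₀ e l (((RingEquiv.ofBijective G hG).trans ε).trans F'.symm)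

/-- For every field `k` of characteristic zero the quotient division ring `Q` of the first Weyl
algebra over `k` contains a division subring `D` which is not PI and is not isomorphic to `Q`, and
not even to the quotient division ring of the first Weyl algebra over any other field. If `k`
embeds in the real numbers, then `D` can be chosen to contain `k`. -/
theorem result (k : Type) [Field k] [CharZero k] :
    (∃ (Q : Type) (_ : DivisionRing Q) (φ : A1 k →+* Q), IsQuotientDivisionRing φ) ∧
    ∀ (Q : Type) [DivisionRing Q] (φ : A1 k →+* Q), IsQuotientDivisionRing φ →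
      ∃ D : Subfield Q, ¬ IsPI D ∧ ¬ Module.Finite (Subring.center D) D ∧ IsEmpty (D ≃+* Q) ∧
        (∀ (l : Type) [Field l] [CharZero l] (Q' : Type) [DivisionRing Q'] (φ' : A1 l →+* Q'),
          IsQuotientDivisionRing φ' → IsEmpty (D ≃+* Q')) ∧
        (Nonempty (k →+* ℝ) → ∀ c : k, φ (algebraMap k (A1 k) c) ∈ D) := by
  refine ⟨?_, ?_⟩
  · obtain ⟨ψ, hψ⟩ := exists_quotient k
    exact ⟨Dv k, inferInstance, ψ, hψ⟩
  · intro Q _ φ h
    by_cases hk : Nonempty (k →+* ℝ)
    · obtain ⟨e⟩ := hk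
      obtain ⟨D, h1, h2, h3, h4⟩ := general_case k k (RingHom.id k) e φ h
      exact ⟨D, h2, h3, h4 k Q φ h, h4, fun _ => h1⟩
    · obtain ⟨D, -, h2, h3, h4⟩ := general_case ℚ k (algebraMap ℚ k) (algebraMap ℚ ℝ) φ h
      exact ⟨D, h2, h3, h4 k Q φ h, h4, fun h5 => absurd h5 hk⟩

end Pool.Agent.Results.MP_7bcc96_al.NonWeylDivision
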